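import Mathlib
import Pool.Agent.Q167.VC.Stm

/-! # Project VC (helper167), JOB INI (helper6): the vector at the resonance -/

set_option autoImplicit false
set_option maxHeartbeats 400000

namespace Pool.Agent.Q6.VC

open Finset Filter Topology
open Pool.Agent.Q167.VC

/-! ### differentiability of the coefficients -/

theorem qb_diff : ∀ n k : ℕ, Differentiable ℂ (fun q : ℂ => qb q n k) := by
  intro n
  induction n with
  | zero =>
    intro k
    cases k with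
    | zero => simp only [qb]; exact differentiable_const _
    | succ k => simp only [qb]; exact differentiable_const _
  | succ n ih =>
    intro k
    cases k with
    | zero => simp only [qb]; exact differentiable_const _
    | succ k =>
      simp only [qb]
      exact (ih k).add ((differentiable_id.pow _).mul (ih (k + 1)))

theorem cf_diff : ∀ p n : ℕ, Differentiable ℂ (fun q : ℂ => cf q p n) := by
  intro p
  induction p with
  | zero => intro n; simp only [cf]; exact differentiable_const _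
  | succ p ih =>
    intro n
    simp only [cf]
    apply Differentiable.fun_sum
    intro k _
    exact ((differentiable_id.pow _).mul (qb_diff n k)).mul (ih k)

theorem Bf_diff {x0 : ℂ} (hx : x0 ≠ 0) (p : ℕ) : ∀ j : ℕ,
    (∀ n, DifferentiableAt ℂ (fun x : ℂ => Bf x p j n) x0) ∧
    (∀ n, DifferentiableAt ℂ (fun x : ℂ => Bf x p (j + 1) n) x0) := by
  intro j
  induction j with
  | zero =>
    constructor
    · intro n; simp only [Bf]; exact differentiableAt_const _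
    · intro n
      simp only [Bf]
      apply DifferentiableAt.div _ differentiableAt_id hx
      apply DifferentiableAt.neg
      exact (cf_diff p n).differentiableAt.comp x0 (differentiableAt_id.pow 2)
  | succ j ih =>
    refine ⟨ih.2, ?_⟩
    intro n
    simp only [Bf]
    have h1 := ih.1 n
    have h2 := ih.2 n
    have h3 := ih.2 (n - 1)
    have h4 : x0 ^ (2 * n + 1) ≠ 0 := pow_ne_zero _ hx
    fun_prop (disch := assumption)

/-! ### logarithmic derivatives -/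

/-- `x0 f'(x0) = l f(x0)` -/
def LD (x0 : ℂ) (f : ℂ → ℂ) (l : ℂ) : Prop := HasDerivAt f (f x0 * l / x0) x0

theorem LD.mul {x0 : ℂ} {f g : ℂ → ℂ} {a b : ℂ} (hf : LD x0 f a) (hg : LD x0 g b) :
    LD x0 (fun x => f x * g x) (a + b) := by
  have h := HasDerivAt.mul hf hg
  have e : f x0 * a / x0 * g x0 + f x0 * (g x0 * b / x0) = f x0 * g x0 * (a + b) / x0 := by ring
  rw [e] at h
  exact h

theorem LD.inv {x0 : ℂ} {f : ℂ → ℂ} {a : ℂ} (hf : LD x0 f a) (h0 : f x0 ≠ 0) :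
    LD x0 (fun x => (f x)⁻¹) (-a) := by
  have h := HasDerivAt.inv hf h0
  have e : -(f x0 * a / x0) / f x0 ^ 2 = (f x0)⁻¹ * -a / x0 := by
    field_simp
  rw [e] at h
  exact h

theorem LD_const (x0 c : ℂ) : LD x0 (fun _ => c) 0 := by
  unfold LD
  rw [mul_zero, zero_div]
  exact hasDerivAt_const _ _

theorem LD_pow {x0 : ℂ} (hx : x0 ≠ 0) (m : ℕ) : LD x0 (fun x => x ^ m) m := by
  unfold LD
  have h := hasDerivAt_pow m x0
  cases m with
  | zero => simpa using h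
  | succ m =>
    have e : ((m + 1 : ℕ) : ℂ) * x0 ^ (m + 1 - 1) = x0 ^ (m + 1) * ((m + 1 : ℕ) : ℂ) / x0 := by
      rw [Nat.add_sub_cancel, pow_succ]
      field_simp
    rw [e] at h
    exact h

theorem LD_one_sub {x0 : ℂ} (hx : x0 ≠ 0) (m : ℕ) (h1 : 1 - x0 ^ m ≠ 0) :
    LD x0 (fun x => 1 - x ^ m) (-(m * x0 ^ m) / (1 - x0 ^ m)) := by
  have h := (hasDerivAt_const x0 (1 : ℂ)).sub (LD_pow hx m)
  unfold LD
  have e : (0 : ℂ) - x0 ^ m * m / x0 = (1 - x0 ^ m) * (-(m * x0 ^ m) / (1 - x0 ^ m)) / x0 := by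
    field_simp
    ring
  rw [e] at h
  exact h

theorem LD_prod {x0 : ℂ} (k : ℕ) (f : ℕ → ℂ → ℂ) (a : ℕ → ℂ) (h : ∀ i < k, LD x0 (f i) (a i)) :
    LD x0 (fun x => ∏ i ∈ range k, f i x) (∑ i ∈ range k, a i) := by
  induction k with
  | zero => simp only [range_zero, prod_empty, sum_empty]; exact LD_const _ _
  | succ k ih =>
    simp only [prod_range_succ, sum_range_succ]
    exact (ih fun i hi => h i (by omega)).mul (h k (by omega))

/-! ### the products -/

theorem po_split (q : ℂ) (n k : ℕ) (hk : k ≤ n) :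
    po q n = po q (n - k) * ∏ i ∈ range k, (1 - q ^ (n - i)) := by
  induction k with
  | zero => simp
  | succ k ih =>
    rw [ih (by omega), prod_range_succ]
    have e : n - k = (n - (k + 1)) + 1 := by omega
    have h : po q (n - k) = po q (n - (k + 1)) * (1 - q ^ (n - k)) := by
      rw [e]
      unfold po
      rw [prod_range_succ]
    rw [h]
    ring

theorem po_add (q : ℂ) (n k : ℕ) :
    po q (n + k + 1) = po q n * (1 - q ^ (n + 1)) * ∏ i ∈ range k, (1 - q ^ (n + 2 + i)) := by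
  induction k with
  | zero =>
    unfold po
    rw [prod_range_succ]
    simp
  | succ k ih =>
    have h : po q (n + (k + 1) + 1) = po q (n + k + 1) * (1 - q ^ (n + 2 + k)) := by
      have e : n + (k + 1) + 1 = (n + k + 1) + 1 := by ring
      rw [e]
      unfold po
      rw [prod_range_succ]
      have e2 : n + k + 1 + 1 = n + 2 + k := by ring
      rw [e2]
    rw [h, ih, prod_range_succ]
    ring


/-- the root `x0`, with `z = x0 ^ 2` a primitive root of unity of order `n + 1` -/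
structure Rt (n : ℕ) (x0 : ℂ) : Prop where
  ne : x0 ≠ 0
  prim : IsPrimitiveRoot (x0 ^ 2) (n + 1)

theorem rt_Rt (n : ℕ) : Rt n (rt (n + 1)) := by
  refine ⟨Complex.exp_ne_zero _, ?_⟩
  have h := Complex.isPrimitiveRoot_exp (n + 1) (by omega)
  have e : rt (n + 1) ^ 2 = Complex.exp (2 * Real.pi * Complex.I / ((n + 1 : ℕ) : ℂ)) := by
    unfold rt
    rw [← Complex.exp_nat_mul]
    congr 1
    push_cast
    ring
  rw [e]
  exact h

section
variable {n : ℕ} {x0 : ℂ}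

theorem Rt.pow_one (h : Rt n x0) : x0 ^ (2 * (n + 1)) = 1 := by
  rw [pow_mul]; exact h.prim.pow_eq_one

theorem Rt.ne_one (h : Rt n x0) {i : ℕ} (h1 : 1 ≤ i) (h2 : i ≤ n) : 1 - x0 ^ (2 * i) ≠ 0 := by
  rw [pow_mul]
  intro hc
  exact h.prim.pow_ne_one_of_pos_of_lt (by omega) (by omega) (sub_eq_zero.1 hc).symm

theorem Rt.ne_one' (h : Rt n x0) {i : ℕ} (h1 : 1 ≤ i) (h2 : i ≤ n) :
    1 - x0 ^ (2 * (n + 1 + i)) ≠ 0 := by
  have e : x0 ^ (2 * (n + 1 + i)) = x0 ^ (2 * i) := by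
    rw [mul_add, pow_add, h.pow_one, one_mul]
  rw [e]
  exact h.ne_one h1 h2

/-- the coefficients -/
noncomputable def AC (n p : ℕ) (k : ℕ) (x : ℂ) : ℂ :=
  (-1) ^ k * x ^ ((2 * p + 1) * (k * (k + 1))) * (∏ i ∈ range k, (1 - x ^ (2 * (n - i)))) *
    (∏ i ∈ range n, (1 - x ^ (2 * (i + 1))))⁻¹ *
    (∏ i ∈ range k, (1 - x ^ (2 * (n + 1 + (i + 1)))))⁻¹

/-- the derivatives -/
noncomputable def cc (x0 : ℂ) (k : ℕ) : ℂ :=
  ∑ i ∈ range k, (1 + x0 ^ (2 * (i + 1))) / (1 - x0 ^ (2 * (i + 1)))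

noncomputable def LL (n : ℕ) (x0 : ℂ) : ℂ :=
  ∑ i ∈ range n, -(((2 * (i + 1) : ℕ) : ℂ) * x0 ^ (2 * (i + 1))) / (1 - x0 ^ (2 * (i + 1)))

noncomputable def raw (n p : ℕ) (x0 : ℂ) (k : ℕ) : ℂ :=
  0 + (((2 * p + 1) * (k * (k + 1)) : ℕ) : ℂ) +
    (∑ i ∈ range k, -(((2 * (n - i) : ℕ) : ℂ) * x0 ^ (2 * (n - i))) / (1 - x0 ^ (2 * (n - i)))) +
    -(LL n x0) +
    -(∑ i ∈ range k, -(((2 * (n + 1 + (i + 1)) : ℕ) : ℂ) * x0 ^ (2 * (n + 1 + (i + 1)))) /
      (1 - x0 ^ (2 * (n + 1 + (i + 1)))))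

theorem pow_key (h : Rt n x0) {k : ℕ} (hk : k + 1 ≤ n) :
    x0 ^ (2 * (n - k)) = (x0 ^ (2 * (k + 1)))⁻¹ := by
  have h1 : x0 ^ (2 * (n - k)) * x0 ^ (2 * (k + 1)) = 1 := by
    rw [← pow_add]
    have : 2 * (n - k) + 2 * (k + 1) = 2 * (n + 1) := by omega
    rw [this, h.pow_one]
  exact eq_inv_of_mul_eq_one_left h1

theorem pow_key' (h : Rt n x0) (k : ℕ) : x0 ^ (2 * (n + 1 + (k + 1))) = x0 ^ (2 * (k + 1)) := by
  rw [mul_add 2 (n + 1), pow_add, h.pow_one, one_mul]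

theorem raw_eq (h : Rt n x0) (p : ℕ) : ∀ k ≤ n, raw n p x0 k =
    2 * p * (k * (k + 1)) + 2 * (n + 1) * cc x0 k - LL n x0 := by
  intro k
  induction k with
  | zero =>
    intro _
    simp [raw, cc]
  | succ k ih =>
    intro hk
    have ih' := ih (by omega)
    have hr : raw n p x0 (k + 1) = raw n p x0 k + (2 * p + 1) * (2 * (k + 1)) +
        -(((2 * (n - k) : ℕ) : ℂ) * x0 ^ (2 * (n - k))) / (1 - x0 ^ (2 * (n - k))) +
        (((2 * (n + 1 + (k + 1)) : ℕ) : ℂ) * x0 ^ (2 * (n + 1 + (k + 1)))) /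
          (1 - x0 ^ (2 * (n + 1 + (k + 1)))) := by
      unfold raw
      rw [sum_range_succ, sum_range_succ]
      push_cast
      ring
    have hc : cc x0 (k + 1) = cc x0 k + (1 + x0 ^ (2 * (k + 1))) / (1 - x0 ^ (2 * (k + 1))) := by
      unfold cc
      rw [sum_range_succ]
    rw [hr, ih', hc, pow_key h hk, pow_key' h k]
    have ht1 : 1 - x0 ^ (2 * (k + 1)) ≠ 0 := h.ne_one (by omega) hk
    have ht0 : x0 ^ (2 * (k + 1)) ≠ 0 := pow_ne_zero _ h.ne
    have hcast : ((2 * (n - k) : ℕ) : ℂ) = 2 * ((n : ℂ) - k) := by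
      rw [Nat.cast_mul, Nat.cast_sub (by omega)]
      norm_num
    rw [hcast]
    set t := x0 ^ (2 * (k + 1)) with ht
    clear_value t
    have ht2 : 1 - t⁻¹ ≠ 0 := by
      intro hc2
      apply ht1
      have : t⁻¹ = 1 := (sub_eq_zero.1 hc2).symm
      rw [inv_eq_one.1 this, sub_self]
    have e1 : -(2 * ((n : ℂ) - k) * t⁻¹) / (1 - t⁻¹) = 2 * ((n : ℂ) - k) / (1 - t) := by
      rw [div_eq_div_iff ht2 ht1]
      field_simp
      ring
    rw [e1]
    push_cast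
    field_simp
    ring

theorem AC_val (h : Rt n x0) (p : ℕ) : ∀ k ≤ n, AC n p k x0 =
    x0 ^ (2 * p * (k * (k + 1))) / (n + 1) := by
  intro k
  induction k with
  | zero =>
    intro _
    unfold AC
    have h1 : ∏ i ∈ range n, (1 - x0 ^ (2 * (i + 1))) = (n : ℂ) + 1 := by
      have := h.prim.prod_one_sub_pow_eq_order
      rw [← this]
      apply prod_congr rfl
      intro i _
      rw [pow_mul]
    rw [h1]
    simp
  | succ k ih =>
    intro hk
    have ih' := ih (by omega)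
    have hr : AC n p (k + 1) x0 = AC n p k x0 * (-(x0 ^ ((2 * p + 1) * (2 * (k + 1)))) *
        (1 - x0 ^ (2 * (n - k))) * (1 - x0 ^ (2 * (n + 1 + (k + 1))))⁻¹) := by
      unfold AC
      rw [prod_range_succ, prod_range_succ, mul_inv,
        show (2 * p + 1) * ((k + 1) * (k + 1 + 1)) = (2 * p + 1) * (k * (k + 1)) +
          (2 * p + 1) * (2 * (k + 1)) by ring, pow_add, pow_succ (-1 : ℂ)]
      ring
    rw [hr, ih', pow_key h hk, pow_key' h k]
    have ht1 : 1 - x0 ^ (2 * (k + 1)) ≠ 0 := h.ne_one (by omega) hk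
    have ht0 : x0 ^ (2 * (k + 1)) ≠ 0 := pow_ne_zero _ h.ne
    have e2 : x0 ^ ((2 * p + 1) * (2 * (k + 1))) = x0 ^ (2 * p * (2 * (k + 1))) * x0 ^ (2 * (k + 1)) := by
      rw [← pow_add]
      congr 1
      ring
    have e3 : x0 ^ (2 * p * ((k + 1) * (k + 1 + 1))) =
        x0 ^ (2 * p * (k * (k + 1))) * x0 ^ (2 * p * (2 * (k + 1))) := by
      rw [← pow_add]
      congr 1
      ring
    rw [e2, e3]
    set t := x0 ^ (2 * (k + 1)) with ht
    clear_value t
    have hn : (n : ℂ) + 1 ≠ 0 := Nat.cast_add_one_ne_zero n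
    field_simp
    ring

theorem AC_LD (h : Rt n x0) (p k : ℕ) (hk : k ≤ n) :
    LD x0 (AC n p k) (2 * p * (k * (k + 1)) + 2 * (n + 1) * cc x0 k - LL n x0) := by
  rw [← raw_eq h p k hk]
  have h1 : LD x0 (fun x => ∏ i ∈ range k, (1 - x ^ (2 * (n - i))))
      (∑ i ∈ range k, -(((2 * (n - i) : ℕ) : ℂ) * x0 ^ (2 * (n - i))) / (1 - x0 ^ (2 * (n - i)))) := by
    apply LD_prod k (fun i x => 1 - x ^ (2 * (n - i)))
    intro i hi
    exact LD_one_sub h.ne _ (h.ne_one (by omega) (by omega))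
  have h2 : LD x0 (fun x => ∏ i ∈ range n, (1 - x ^ (2 * (i + 1)))) (LL n x0) := by
    apply LD_prod n (fun i x => 1 - x ^ (2 * (i + 1)))
    intro i hi
    exact LD_one_sub h.ne _ (h.ne_one (by omega) (by omega))
  have h3 : LD x0 (fun x => ∏ i ∈ range k, (1 - x ^ (2 * (n + 1 + (i + 1)))))
      (∑ i ∈ range k, -(((2 * (n + 1 + (i + 1)) : ℕ) : ℂ) * x0 ^ (2 * (n + 1 + (i + 1)))) /
        (1 - x0 ^ (2 * (n + 1 + (i + 1))))) := by
    apply LD_prod k (fun i x => 1 - x ^ (2 * (n + 1 + (i + 1))))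
    intro i hi
    exact LD_one_sub h.ne _ (h.ne_one' (by omega) (by omega))
  have h2' : ∏ i ∈ range n, (1 - x0 ^ (2 * (i + 1))) ≠ 0 := by
    rw [prod_ne_zero_iff]
    intro i hi
    rw [mem_range] at hi
    exact h.ne_one (by omega) (by omega)
  have h3' : ∏ i ∈ range k, (1 - x0 ^ (2 * (n + 1 + (i + 1)))) ≠ 0 := by
    rw [prod_ne_zero_iff]
    intro i hi
    rw [mem_range] at hi
    exact h.ne_one' (by omega) (by omega)
  exact (((((LD_const x0 ((-1) ^ k)).mul (LD_pow h.ne _)).mul h1).mul (h2.inv h2')).mul (h3.inv h3'))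

/-- the differences of powers -/
noncomputable def dd (j k : ℕ) (x : ℂ) : ℂ := x ^ (j * (2 * k + 1)) - (x⁻¹) ^ (j * (2 * k + 1))

theorem dd_deriv (hx : x0 ≠ 0) (j k : ℕ) : HasDerivAt (dd j k)
    (((j * (2 * k + 1) : ℕ) : ℂ) * (x0 ^ (j * (2 * k + 1)) + (x0⁻¹) ^ (j * (2 * k + 1))) / x0) x0 := by
  have h1 := LD_pow hx (j * (2 * k + 1))
  have h2 := h1.inv (pow_ne_zero _ hx)
  have h3 := HasDerivAt.sub h1 h2
  have e : x0 ^ (j * (2 * k + 1)) * ((j * (2 * k + 1) : ℕ) : ℂ) / x0 -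
      (x0 ^ (j * (2 * k + 1)))⁻¹ * -((j * (2 * k + 1) : ℕ) : ℂ) / x0 =
      ((j * (2 * k + 1) : ℕ) : ℂ) * (x0 ^ (j * (2 * k + 1)) + (x0⁻¹) ^ (j * (2 * k + 1))) / x0 := by
    rw [inv_pow]
    ring
  rw [e] at h3
  have e2 : dd j k = fun x => x ^ (j * (2 * k + 1)) - (x ^ (j * (2 * k + 1)))⁻¹ := by
    funext x
    unfold dd
    rw [inv_pow]
  rw [e2]
  exact h3

theorem eq1 (hgen : S_gen) (n p j : ℕ) (x : ℂ) (hx : x ≠ 0)
    (h : ∀ i : ℕ, 1 ≤ i → i ≤ 2 * n + 1 → x ^ (2 * i) ≠ 1) :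
    (1 - x ^ (2 * (n + 1))) * Bf x p j n = ∑ k ∈ range (n + 1), AC n p k x * dd j k x := by
  rw [hgen x hx n h p j, mul_sum]
  apply sum_congr rfl
  intro k hk
  have hk' : k ≤ n := by rw [mem_range] at hk; omega
  have hne : ∀ i : ℕ, 1 ≤ i → i ≤ 2 * n + 1 → 1 - x ^ (2 * i) ≠ 0 := by
    intro i h1 h2 hc
    exact h i h1 h2 (sub_eq_zero.1 hc).symm
  have hpo1 : po (x ^ 2) n = po (x ^ 2) (n - k) * ∏ i ∈ range k, (1 - x ^ (2 * (n - i))) := by
    rw [po_split _ n k hk']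
    congr 1
    apply prod_congr rfl
    intro i _
    rw [pow_mul]
  have hpo2 : po (x ^ 2) (n + k + 1) = po (x ^ 2) n * (1 - x ^ (2 * (n + 1))) *
      ∏ i ∈ range k, (1 - x ^ (2 * (n + 1 + (i + 1)))) := by
    rw [po_add]
    rw [pow_mul x 2 (n + 1)]
    congr 1
    apply prod_congr rfl
    intro i _
    rw [pow_mul x 2]
    congr 2
    ring
  have hw : po (x ^ 2) n = ∏ i ∈ range n, (1 - x ^ (2 * (i + 1))) := by
    unfold po
    apply prod_congr rfl
    intro i _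
    rw [pow_mul]
  have hw0 : ∏ i ∈ range n, (1 - x ^ (2 * (i + 1))) ≠ 0 := by
    rw [prod_ne_zero_iff]
    intro i hi
    rw [mem_range] at hi
    exact hne _ (by omega) (by omega)
  have hv0 : ∏ i ∈ range k, (1 - x ^ (2 * (n + 1 + (i + 1)))) ≠ 0 := by
    rw [prod_ne_zero_iff]
    intro i hi
    rw [mem_range] at hi
    exact hne _ (by omega) (by omega)
  have hg0 : 1 - x ^ (2 * (n + 1)) ≠ 0 := hne _ (by omega) (by omega)
  have hp0 : po (x ^ 2) (n - k) ≠ 0 := by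
    unfold po
    rw [prod_ne_zero_iff]
    intro i hi
    rw [mem_range] at hi
    rw [← pow_mul]
    exact hne _ (by omega) (by omega)
  have key : (1 - x ^ (2 * (n + 1))) * (po (x ^ 2) n / (po (x ^ 2) (n - k) * po (x ^ 2) (n + k + 1))) =
      (∏ i ∈ range k, (1 - x ^ (2 * (n - i)))) * (∏ i ∈ range n, (1 - x ^ (2 * (i + 1))))⁻¹ *
        (∏ i ∈ range k, (1 - x ^ (2 * (n + 1 + (i + 1)))))⁻¹ := by
    rw [hpo2]
    nth_rewrite 1 [hpo1]
    rw [hw]
    set g := 1 - x ^ (2 * (n + 1))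
    set u := ∏ i ∈ range k, (1 - x ^ (2 * (n - i)))
    set w := ∏ i ∈ range n, (1 - x ^ (2 * (i + 1)))
    set v := ∏ i ∈ range k, (1 - x ^ (2 * (n + 1 + (i + 1))))
    set r := po (x ^ 2) (n - k)
    field_simp
  unfold AC dd
  linear_combination ((-1) ^ k * x ^ ((2 * p + 1) * (k * (k + 1))) *
    (x ^ (j * (2 * k + 1)) - (x⁻¹) ^ (j * (2 * k + 1)))) * key

/-- the derivative at the resonance -/
theorem key_deriv (hgen : S_gen) (h : Rt n x0) (p j : ℕ) :
    -(2 * ((n : ℂ) + 1)) * Bf x0 p j n = ∑ k ∈ range (n + 1),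
      x0 ^ (2 * p * (k * (k + 1))) / (n + 1) *
        ((2 * p * (k * (k + 1)) + 2 * (n + 1) * cc x0 k - LL n x0) *
          (x0 ^ (j * (2 * k + 1)) - (x0⁻¹) ^ (j * (2 * k + 1))) +
        ((j * (2 * k + 1) : ℕ) : ℂ) * (x0 ^ (j * (2 * k + 1)) + (x0⁻¹) ^ (j * (2 * k + 1)))) := by
  have hH : HasDerivAt (fun x => ∑ k ∈ range (n + 1), AC n p k x * dd j k x)
      (∑ k ∈ range (n + 1), (AC n p k x0 * (2 * p * (k * (k + 1)) + 2 * (n + 1) * cc x0 k - LL n x0) / x0 *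
        dd j k x0 + AC n p k x0 * (((j * (2 * k + 1) : ℕ) : ℂ) *
          (x0 ^ (j * (2 * k + 1)) + (x0⁻¹) ^ (j * (2 * k + 1))) / x0))) x0 := by
    apply HasDerivAt.fun_sum
    intro k hk
    have hk' : k ≤ n := by rw [mem_range] at hk; omega
    exact HasDerivAt.mul (AC_LD h p k hk') (dd_deriv h.ne j k)
  have hG : HasDerivAt (fun x => (1 - x ^ (2 * (n + 1))) * Bf x p j n)
      ((0 - x0 ^ (2 * (n + 1)) * ((2 * (n + 1) : ℕ) : ℂ) / x0) * Bf x0 p j n +
        (1 - x0 ^ (2 * (n + 1))) * deriv (fun x => Bf x p j n) x0) x0 := by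
    have h1 := (hasDerivAt_const x0 (1 : ℂ)).sub (LD_pow h.ne (2 * (n + 1)))
    have h2 := ((Bf_diff h.ne p j).1 n).hasDerivAt
    exact HasDerivAt.mul h1 h2
  have hfin : ({x : ℂ | ∃ i ∈ range (2 * n + 2), 1 ≤ i ∧ x ^ (2 * i) = 1}).Finite := by
    have : {x : ℂ | ∃ i ∈ range (2 * n + 2), 1 ≤ i ∧ x ^ (2 * i) = 1} ⊆
        ⋃ i ∈ (range (2 * n + 2) : Finset ℕ), {x : ℂ | 1 ≤ i ∧ x ^ (2 * i) = 1} := by
      intro x hx
      obtain ⟨i, hi, hx⟩ := hx
      simp only [Set.mem_iUnion]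
      exact ⟨i, hi, hx⟩
    refine Set.Finite.subset ?_ this
    apply Set.Finite.biUnion (Finset.finite_toSet _)
    intro i _
    by_cases hi : 1 ≤ i
    · have h2 : {x : ℂ | 1 ≤ i ∧ x ^ (2 * i) = 1} ⊆ ((Polynomial.nthRoots (2 * i) (1 : ℂ)).toFinset : Set ℂ) := by
        intro x hx
        rw [Finset.mem_coe, Multiset.mem_toFinset, Polynomial.mem_nthRoots (by omega)]
        exact hx.2
      exact (Finset.finite_toSet _).subset h2
    · have : {x : ℂ | 1 ≤ i ∧ x ^ (2 * i) = 1} = ∅ := by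
        ext x
        simp [hi]
      rw [this]
      exact Set.finite_empty
  have hev : ∀ᶠ x in 𝓝[≠] x0, (fun x => (1 - x ^ (2 * (n + 1))) * Bf x p j n) x =
      (fun x => ∑ k ∈ range (n + 1), AC n p k x * dd j k x) x := by
    have h1 : ∀ᶠ x in 𝓝 x0, x ∉ ({x : ℂ | ∃ i ∈ range (2 * n + 2), 1 ≤ i ∧ x ^ (2 * i) = 1} \ {x0}) :=
      (hfin.subset Set.sdiff_subset).isClosed.isOpen_compl.mem_nhds (fun hc => hc.2 rfl)
    have h2 : ∀ᶠ x in 𝓝 x0, x ≠ 0 := isOpen_ne.mem_nhds h.ne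
    rw [eventually_nhdsWithin_iff]
    filter_upwards [h1, h2] with x hx1 hx2 hx3
    apply eq1 hgen n p j x hx2
    intro i hi1 hi2 hc
    exact hx1 ⟨⟨i, mem_range.2 (by omega), hi1, hc⟩, hx3⟩
  have hval : (fun x => (1 - x ^ (2 * (n + 1))) * Bf x p j n) x0 =
      (fun x => ∑ k ∈ range (n + 1), AC n p k x * dd j k x) x0 := by
    have h1 := hG.continuousAt.tendsto.mono_left (nhdsWithin_le_nhds (s := {x0}ᶜ))
    have h2 := hH.continuousAt.tendsto.mono_left (nhdsWithin_le_nhds (s := {x0}ᶜ))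
    exact tendsto_nhds_unique (h1.congr' hev) h2
  have hev2 : (fun x => (1 - x ^ (2 * (n + 1))) * Bf x p j n) =ᶠ[𝓝 x0]
      (fun x => ∑ k ∈ range (n + 1), AC n p k x * dd j k x) := by
    rw [eventually_nhdsWithin_iff] at hev
    filter_upwards [hev] with x hx
    by_cases hc : x = x0
    · rw [hc]; exact hval
    · exact hx hc
  have hu := hG.unique (hH.congr_of_eventuallyEq hev2)
  rw [h.pow_one, sub_self, zero_mul, add_zero] at hu
  have hx0 := h.ne
  have e1 : -(2 * ((n : ℂ) + 1)) * Bf x0 p j n =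
      x0 * ((0 - 1 * ((2 * (n + 1) : ℕ) : ℂ) / x0) * Bf x0 p j n) := by
    push_cast
    field_simp
    ring
  rw [e1, hu, mul_sum]
  apply sum_congr rfl
  intro k hk
  have hk' : k ≤ n := by rw [mem_range] at hk; omega
  rw [AC_val h p k hk']
  unfold dd
  field_simp

/-! ### the involution -/

theorem cc_zero (h : Rt n x0) : cc x0 n = 0 := by
  have h1 : cc x0 n = - cc x0 n := by
    unfold cc
    nth_rewrite 1 [← sum_range_reflect]
    rw [← sum_neg_distrib]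
    apply sum_congr rfl
    intro i hi
    rw [mem_range] at hi
    have e : n - 1 - i + 1 = n - i := by omega
    rw [e, pow_key h (by omega)]
    have ht1 : 1 - x0 ^ (2 * (i + 1)) ≠ 0 := h.ne_one (by omega) (by omega)
    have ht0 : x0 ^ (2 * (i + 1)) ≠ 0 := pow_ne_zero _ h.ne
    set t := x0 ^ (2 * (i + 1)) with ht
    clear_value t
    have ht2 : 1 - t⁻¹ ≠ 0 := by
      intro hc2
      apply ht1
      have : t⁻¹ = 1 := (sub_eq_zero.1 hc2).symm
      rw [inv_eq_one.1 this, sub_self]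
    rw [← neg_div, div_eq_div_iff ht2 ht1]
    field_simp
    ring
  have h2 : (2 : ℂ) * cc x0 n = 0 := by linear_combination h1
  exact (mul_eq_zero.1 h2).resolve_left (by norm_num)

theorem cc_reflect (h : Rt n x0) : ∀ k ≤ n, cc x0 (n - k) = cc x0 k := by
  intro k
  induction k with
  | zero =>
    intro _
    rw [Nat.sub_zero, cc_zero h]
    simp [cc]
  | succ k ih =>
    intro hk
    have ih' := ih (by omega)
    have e : n - k = n - (k + 1) + 1 := by omega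
    have h1 : cc x0 (n - k) = cc x0 (n - (k + 1)) +
        (1 + x0 ^ (2 * (n - k))) / (1 - x0 ^ (2 * (n - k))) := by
      unfold cc
      rw [e, sum_range_succ]
    have h2 : cc x0 (k + 1) = cc x0 k + (1 + x0 ^ (2 * (k + 1))) / (1 - x0 ^ (2 * (k + 1))) := by
      unfold cc
      rw [sum_range_succ]
    rw [pow_key h hk] at h1
    have ht1 : 1 - x0 ^ (2 * (k + 1)) ≠ 0 := h.ne_one (by omega) hk
    have ht0 : x0 ^ (2 * (k + 1)) ≠ 0 := pow_ne_zero _ h.ne
    set t := x0 ^ (2 * (k + 1)) with ht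
    clear_value t
    have ht2 : 1 - t⁻¹ ≠ 0 := by
      intro hc2
      apply ht1
      have : t⁻¹ = 1 := (sub_eq_zero.1 hc2).symm
      rw [inv_eq_one.1 this, sub_self]
    have h3 : (1 + t⁻¹) / (1 - t⁻¹) = -((1 + t) / (1 - t)) := by
      rw [← neg_div, div_eq_div_iff ht2 ht1]
      field_simp
      ring
    rw [h3] at h1
    rw [h2, ← ih', h1]
    ring

theorem E_reflect (h : Rt n x0) (p k : ℕ) (hk : k ≤ n) :
    x0 ^ (2 * p * ((n - k) * ((n - k) + 1))) = x0 ^ (2 * p * (k * (k + 1))) := by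
  have h1 : x0 ^ (2 * p * ((n - k) * ((n - k) + 1))) * x0 ^ (2 * (n + 1) * (p * (2 * k))) =
      x0 ^ (2 * p * (k * (k + 1))) * x0 ^ (2 * (n + 1) * (p * n)) := by
    rw [← pow_add, ← pow_add]
    congr 1
    obtain ⟨m, rfl⟩ := Nat.exists_eq_add_of_le hk
    rw [Nat.add_sub_cancel_left]
    ring
  rw [pow_mul x0 (2 * (n + 1)), pow_mul x0 (2 * (n + 1)) (p * n), h.pow_one, _root_.one_pow,
    _root_.one_pow, mul_one, mul_one] at h1
  exact h1

theorem P_reflect (h : Rt n x0) (j k : ℕ) (hk : k ≤ n) :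
    x0 ^ (j * (2 * (n - k) + 1)) = (x0⁻¹) ^ (j * (2 * k + 1)) := by
  rw [inv_pow]
  apply eq_inv_of_mul_eq_one_left
  rw [← pow_add]
  have e : j * (2 * (n - k) + 1) + j * (2 * k + 1) = 2 * (n + 1) * j := by
    obtain ⟨m, rfl⟩ := Nat.exists_eq_add_of_le hk
    rw [Nat.add_sub_cancel_left]
    ring
  rw [e, pow_mul, h.pow_one, _root_.one_pow]

theorem Q_reflect (h : Rt n x0) (j k : ℕ) (hk : k ≤ n) :
    (x0⁻¹) ^ (j * (2 * (n - k) + 1)) = x0 ^ (j * (2 * k + 1)) := by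
  have h1 := P_reflect h j (n - k) (by omega)
  have e : n - (n - k) = k := by omega
  rw [e] at h1
  exact h1.symm

/-- the final sum -/
theorem final_sum (h : Rt n x0) (p j : ℕ) : ∑ k ∈ range (n + 1),
      x0 ^ (2 * p * (k * (k + 1))) / (n + 1) *
        ((2 * p * (k * (k + 1)) + 2 * (n + 1) * cc x0 k - LL n x0) *
          (x0 ^ (j * (2 * k + 1)) - (x0⁻¹) ^ (j * (2 * k + 1))) +
        ((j * (2 * k + 1) : ℕ) : ℂ) * (x0 ^ (j * (2 * k + 1)) + (x0⁻¹) ^ (j * (2 * k + 1)))) =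
    ∑ k ∈ range (n + 1), x0 ^ (2 * p * (k * (k + 1))) * x0 ^ (j * (2 * k + 1)) *
      (-(2 * p * (n - 2 * k)) + 2 * j) := by
  set S := ∑ k ∈ range (n + 1),
      x0 ^ (2 * p * (k * (k + 1))) / (n + 1) *
        ((2 * p * (k * (k + 1)) + 2 * (n + 1) * cc x0 k - LL n x0) *
          (x0 ^ (j * (2 * k + 1)) - (x0⁻¹) ^ (j * (2 * k + 1))) +
        ((j * (2 * k + 1) : ℕ) : ℂ) * (x0 ^ (j * (2 * k + 1)) + (x0⁻¹) ^ (j * (2 * k + 1)))) with hS
  have hn : (n : ℂ) + 1 ≠ 0 := Nat.cast_add_one_ne_zero n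
  have h1 : S + S = ∑ k ∈ range (n + 1), (x0 ^ (2 * p * (k * (k + 1))) * x0 ^ (j * (2 * k + 1)) *
      (-(2 * p * (n - 2 * k)) + 2 * j) + x0 ^ (2 * p * (k * (k + 1))) * (x0⁻¹) ^ (j * (2 * k + 1)) *
      (2 * p * (n - 2 * k) + 2 * j)) := by
    nth_rewrite 2 [hS]
    rw [← sum_range_reflect, hS, ← sum_add_distrib]
    apply sum_congr rfl
    intro k hk
    have hk' : k ≤ n := by rw [mem_range] at hk; omega
    have e : n + 1 - 1 - k = n - k := by omega
    rw [e, E_reflect h p k hk', P_reflect h j k hk', Q_reflect h j k hk', cc_reflect h k hk']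
    push_cast [Nat.cast_sub hk']
    field_simp
    ring
  have h2 : ∑ k ∈ range (n + 1), x0 ^ (2 * p * (k * (k + 1))) * (x0⁻¹) ^ (j * (2 * k + 1)) *
      (2 * p * ((n : ℂ) - 2 * k) + 2 * j) =
      ∑ k ∈ range (n + 1), x0 ^ (2 * p * (k * (k + 1))) * x0 ^ (j * (2 * k + 1)) *
      (-(2 * p * (n - 2 * k)) + 2 * j) := by
    rw [← sum_range_reflect]
    apply sum_congr rfl
    intro k hk
    have hk' : k ≤ n := by rw [mem_range] at hk; omega
    have e : n + 1 - 1 - k = n - k := by omega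
    rw [e, E_reflect h p k hk', Q_reflect h j k hk']
    push_cast [Nat.cast_sub hk']
    ring
  rw [sum_add_distrib, h2] at h1
  have h3 : (2 : ℂ) * S = 2 * ∑ k ∈ range (n + 1), x0 ^ (2 * p * (k * (k + 1))) * x0 ^ (j * (2 * k + 1)) *
      (-(2 * p * (n - 2 * k)) + 2 * j) := by
    rw [two_mul, two_mul, h1]
  exact mul_left_cancel₀ (by norm_num) h3

end

/-- JOB INI -/
theorem ini (h : S_gen) : S_init := by
  intro N p j hN
  obtain ⟨n, rfl⟩ : ∃ n, N = n + 1 := ⟨N - 1, by omega⟩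
  have hR := rt_Rt n
  have h1 := key_deriv h hR p j
  rw [final_sum hR p j] at h1
  rw [Nat.add_sub_cancel]
  have hA : AA (n + 1) p j = ∑ k ∈ range (n + 1), rt (n + 1) ^ (2 * p * (k * (k + 1))) *
      rt (n + 1) ^ (j * (2 * k + 1)) * ((n : ℂ) - 2 * k) := by
    unfold AA
    apply sum_congr rfl
    intro k _
    rw [pow_add]
    push_cast
    ring
  have hG : GZ (n + 1) p j = ∑ k ∈ range (n + 1), rt (n + 1) ^ (2 * p * (k * (k + 1))) *
      rt (n + 1) ^ (j * (2 * k + 1)) := by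
    unfold GZ
    apply sum_congr rfl
    intro k _
    rw [← pow_add, ← zpow_natCast]
    congr 1
  have e : ∑ k ∈ range (n + 1), rt (n + 1) ^ (2 * p * (k * (k + 1))) * rt (n + 1) ^ (j * (2 * k + 1)) *
      (-(2 * p * ((n : ℂ) - 2 * k)) + 2 * j) = -(2 * p) * AA (n + 1) p j + 2 * j * GZ (n + 1) p j := by
    rw [hA, hG, mul_sum, mul_sum, ← sum_add_distrib]
    apply sum_congr rfl
    intro k _
    ring
  rw [e] at h1
  push_cast
  linear_combination (-1 / 2) * h1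

end Pool.Agent.Q6.VC
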